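import Pool.Agent.Helper53.Comp.GoalsP

/-! P10: generic directions. -/

namespace Mono

namespace Comp

open Finset Filter Topology

namespace P10

variable {n k : ℕ}

theorem ev_affine (a b : ℝ) (hb : b ≠ 0) : ∀ᶠ ε : ℝ in 𝓝[>] 0, a + ε * b ≠ 0 := by
  by_cases ha : a = 0
  · filter_upwards [self_mem_nhdsWithin] with ε hε
    rw [ha, zero_add]
    exact mul_ne_zero (ne_of_gt hε) hb
  · have h1 : Tendsto (fun ε : ℝ => a + ε * b) (𝓝[>] 0) (𝓝 a) := by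
      have : Tendsto (fun ε : ℝ => a + ε * b) (𝓝 0) (𝓝 (a + 0 * b)) := by
        apply Continuous.tendsto
        fun_prop
      rw [zero_mul, add_zero] at this
      exact this.mono_left nhdsWithin_le_nhds
    exact h1.eventually_ne ha

/-- `θ ↦ crd F (θ ∘ c) u` as a linear map. -/
noncomputable def crdL (c : Fin k → Fin n) {F : Finset (Fin k → ℤ)} (h : Indep F)
    (hc : F.card = k) (u : Fin k → ℤ) : (Fin n → ℝ) →ₗ[ℝ] ℝ where
  toFun := fun θ => crd F (fun i => θ (c i)) u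
  map_add' := fun x y => crd_add h hc (fun i => x (c i)) (fun i => y (c i)) u
  map_smul' := fun a x => crd_smul h hc a (fun i => x (c i)) u

end P10

open P10 in
theorem genDir : GenDir := by
  classical
  intro n k Φ blk ρ _
  -- the index set of the conditions on the coordinates
  let S : Finset ((Fin k → Fin n) × Finset (Fin k → ℤ) × (Fin k → ℤ)) :=
    (sel blk ×ˢ (Φ.mx ×ˢ Φ.vert)).filter (fun p => p.2.2 ∈ p.2.1)
  have hS : ∀ p ∈ S, p.1 ∈ sel blk ∧ p.2.1 ∈ Φ.mx ∧ p.2.2 ∈ p.2.1 := by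
    intro p hp
    simp only [S, Finset.mem_filter, Finset.mem_product] at hp
    exact ⟨hp.1.1, hp.1.2.1, hp.2⟩
  let f : (S ⊕ (Fin n ⊕ {p : Fin n × Fin n // p.1 ≠ p.2})) → Module.Dual ℝ (Fin n → ℝ) :=
    Sum.elim (fun p => crdL p.1.1 (Φ.mx_indep p.1.2.1 (hS p.1 p.2).2.1)
        (Φ.mx_card p.1.2.1 (hS p.1 p.2).2.1) p.1.2.2)
      (Sum.elim (fun i => (LinearMap.proj i : (Fin n → ℝ) →ₗ[ℝ] ℝ))
        (fun p => (LinearMap.proj p.1.1 : (Fin n → ℝ) →ₗ[ℝ] ℝ) - LinearMap.proj p.1.2))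
  obtain ⟨θ, hθ⟩ := Module.Dual.exists_forall_ne_zero_of_forall_exists f (by
    rintro (p | i | p)
    · obtain ⟨hc, hF, hu⟩ := hS p.1 p.2
      refine ⟨fun j => toR p.1.2.2 (blk j), ?_⟩
      have h1 : (fun i => toR p.1.2.2 (blk (p.1.1 i))) = toR p.1.2.2 := by
        funext i
        have := (Finset.mem_filter.1 hc).2 i
        rw [this]
      change crd p.1.2.1 (fun i => toR p.1.2.2 (blk (p.1.1 i))) p.1.2.2 ≠ 0
      rw [h1, crd_toR (Φ.mx_indep _ hF) hu]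
      simp
    · exact ⟨fun _ => 1, by simp [f]⟩
    · refine ⟨Pi.single p.1.1 1, ?_⟩
      have : p.1.2 ≠ p.1.1 := p.2.symm
      simp [f, this])
  have hθ1 : ∀ c ∈ sel blk, ∀ F ∈ Φ.mx, ∀ u ∈ F, crd F (fun i => θ (c i)) u ≠ 0 := by
    intro c hc F hF u hu
    have hp : (c, F, u) ∈ S := by
      simp only [S, Finset.mem_filter, Finset.mem_product]
      exact ⟨⟨hc, hF, Φ.mx_sub F hF hu⟩, hu⟩
    exact hθ (Sum.inl ⟨(c, F, u), hp⟩)
  have hθ2 : ∀ i, θ i ≠ 0 := fun i => hθ (Sum.inr (Sum.inl i))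
  have hθ3 : ∀ i j, i ≠ j → θ i - θ j ≠ 0 := fun i j hij =>
    hθ (Sum.inr (Sum.inr ⟨(i, j), hij⟩))
  refine ⟨θ, fun c hc => ⟨hθ1 c hc, fun i => hθ2 (c i)⟩, ?_⟩
  have e1 : ∀ᶠ ε : ℝ in 𝓝[>] 0, ∀ p ∈ S,
      crd p.2.1 (fun i => ρ (p.1 i)) p.2.2 + ε * crd p.2.1 (fun i => θ (p.1 i)) p.2.2 ≠ 0 := by
    rw [Filter.eventually_all_finset]
    intro p hp
    obtain ⟨hc, hF, hu⟩ := hS p hp
    exact ev_affine _ _ (hθ1 _ hc _ hF _ hu)
  have e2 : ∀ᶠ ε : ℝ in 𝓝[>] 0, ∀ i, ρ i + ε * θ i ≠ 0 := by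
    rw [Filter.eventually_all]
    exact fun i => ev_affine _ _ (hθ2 i)
  have e3 : ∀ᶠ ε : ℝ in 𝓝[>] 0, ∀ p : Fin n × Fin n, p.1 ≠ p.2 →
      (ρ p.1 - ρ p.2) + ε * (θ p.1 - θ p.2) ≠ 0 := by
    rw [Filter.eventually_all]
    intro p
    by_cases hp : p.1 = p.2
    · exact Filter.Eventually.of_forall fun _ h => absurd hp h
    · filter_upwards [ev_affine (ρ p.1 - ρ p.2) (θ p.1 - θ p.2) (hθ3 _ _ hp)] with ε hε _
      exact hε
  filter_upwards [e1, e2, e3] with ε h1 h2 h3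
  refine ⟨fun c hc => ⟨fun F hF u hu => ?_, fun i => h2 (c i)⟩, fun j j' hj _ heq => ?_⟩
  · have hp : (c, F, u) ∈ S := by
      simp only [S, Finset.mem_filter, Finset.mem_product]
      exact ⟨⟨hc, hF, Φ.mx_sub F hF hu⟩, hu⟩
    have h4 := h1 _ hp
    have h5 : crd F (fun i => (ρ + ε • θ) (c i)) u =
        crd F (fun i => ρ (c i)) u + ε * crd F (fun i => θ (c i)) u := by
      have := crd_add (Φ.mx_indep F hF) (Φ.mx_card F hF) (fun i => ρ (c i))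
        (ε • fun i => θ (c i)) u
      rw [crd_smul (Φ.mx_indep F hF) (Φ.mx_card F hF)] at this
      exact this
    rw [h5]
    exact h4
  · refine h3 (j, j') hj ?_
    simp only [Pi.add_apply, Pi.smul_apply, smul_eq_mul] at heq
    change (ρ j - ρ j') + ε * (θ j - θ j') = 0
    linarith

end Comp

end Mono
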